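import Pool.Agent.W937.FG.All
import Pool.Agent.W382.FG.P1

/-!
MP_9d0328_lc, the forbidding case: erasing rules strictly increase the power of forbidding
grammars. The witness language encodes a primitive recursive diagonal predicate on the words
`a^m b^m c^m`; forbidding grammars simulate counter programs with decrement errors, and a
fast-growing amplifier together with its inverse forces every successful computation to be exact.
-/

set_option autoImplicit false

namespace Pool.Agent.Results.MP_9d0328_lc.ForbiddingErasing

open Pool.Agent.W937.FG

/-- There is a forbidding grammar with erasing rules over the terminal alphabet `Fin 3` whose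
language differs, on nonempty words, from the language of every propagating forbidding grammar,
and even from the language of every noncontracting grammar with forbidding sets (in particular of
every context-sensitive grammar). -/
theorem result :
    ∃ (N : Type) (_ : Finite N) (S : N) (P : Set (Rule (Fin 3) N)), P.Finite ∧
      (∀ (N' : Type) [Finite N'] (S' : N') (P' : Set (Rule (Fin 3) N')), P'.Finite →
        (∀ ρ ∈ P', ρ.2.1 ≠ []) →
        ∃ w : List (Fin 3), w ≠ [] ∧ ¬ (Gen P S w ↔ Gen P' S' w)) ∧
      (∀ (N' : Type) [Finite N'] (S' : N') (P' : Set (GRule (Fin 3) N')), P'.Finite →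
        (∀ ρ ∈ P', ρ.1.length ≤ ρ.2.1.length) →
        ∃ w : List (Fin 3), w ≠ [] ∧ ¬ (Gen P S w ↔ GGen P' S' w)) :=
  final hG hF hC4 hTOPS hTOPC (hP2 Pool.Agent.W382.FG.P1.main)

end Pool.Agent.Results.MP_9d0328_lc.ForbiddingErasing
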